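import Mathlib
import Pool.Agent.Lib.Cluster264153

/-!
# MP_9a52ae_co: the pattern `264153`, every weight `u < 1`

`P_σ(u, z)` and `ω_σ(u, z) = 1 / P_σ(u, z)` are formal power series in `z`, as in the problem.
For `σ = 264153` and every real `u < 1` the series `ω_σ(u, z)` has radius of convergence at most
`7 / (1 - u) ^ (1/4)`; the case `u = 0` answers the question.
-/

set_option autoImplicit false

namespace Pool.Agent.Results.MP_9a52ae_co.WeightsBelowOne

open PowerSeries Pool.Agent.Lib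

/-- `σ ∈ S_m` occurs in `π ∈ S_n` at position `i` (positions are counted from `0`): the block of
the `m` adjacent entries of `π` at positions `i, ..., i + m - 1` is order-isomorphic to `σ`. -/
def OccursAt {m n : ℕ} (σ : Equiv.Perm (Fin m)) (π : Equiv.Perm (Fin n)) (i : ℕ) : Prop :=
  ∃ h : i + m ≤ n, ∀ a b : Fin m,
    (π ⟨i + (a : ℕ), by omega⟩ < π ⟨i + (b : ℕ), by omega⟩ ↔ σ a < σ b)

/-- `occ_σ(π)`, the number of occurrences of `σ` in `π`. -/
noncomputable def occ {m n : ℕ} (σ : Equiv.Perm (Fin m)) (π : Equiv.Perm (Fin n)) : ℕ :=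
  Set.ncard {i : ℕ | OccursAt σ π i}

/-- `α_n(σ)`, the number of `π ∈ S_n` without an occurrence of `σ`. -/
noncomputable def avoiders {m : ℕ} (σ : Equiv.Perm (Fin m)) (n : ℕ) : ℕ :=
  Set.ncard {π : Equiv.Perm (Fin n) | ∀ i : ℕ, ¬ OccursAt σ π i}

/-- `P_σ(u, z) = ∑_n ∑_{π ∈ S_n} u ^ occ_σ(π) z ^ n / n!`, a power series in `z`. -/
noncomputable def P {m : ℕ} (σ : Equiv.Perm (Fin m)) (u : ℝ) : PowerSeries ℝ :=
  PowerSeries.mk fun n => (∑ π : Equiv.Perm (Fin n), u ^ occ σ π) / (n.factorial : ℝ)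

/-- `ω_σ(u, z) = 1 / P_σ(u, z)`, the reciprocal power series in `z`. -/
noncomputable def omegaSeries {m : ℕ} (σ : Equiv.Perm (Fin m)) (u : ℝ) : PowerSeries ℝ := (P σ u)⁻¹

lemma occursAt_iff {n : ℕ} (π : Equiv.Perm (Fin n)) (i : ℕ) :
    OccursAt Cluster264153.sigma π i ↔ Cluster264153.O π i := by
  unfold OccursAt Cluster264153.O
  rw [← Cluster264153.occ_iff]
  constructor
  · rintro ⟨h, hab⟩
    refine ⟨h, fun a b => ?_⟩
    unfold Cluster264153.ext
    rw [dif_pos (by omega : i + (a : ℕ) < n), dif_pos (by omega : i + (b : ℕ) < n), ← Fin.lt_def]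
    exact (hab a b).symm
  · rintro ⟨h, hab⟩
    refine ⟨h, fun a b => ?_⟩
    have := hab a b
    unfold Cluster264153.ext at this
    rw [dif_pos (by omega : i + (a : ℕ) < n), dif_pos (by omega : i + (b : ℕ) < n),
      ← Fin.lt_def] at this
    exact this.symm

lemma occ_eq (u : ℝ) {n : ℕ} (π : Equiv.Perm (Fin n)) :
    u ^ occ Cluster264153.sigma π = Cluster264153.e u (Cluster264153.O π) 0 := by
  unfold occ Cluster264153.e
  congr 2
  ext i
  simp [occursAt_iff]

lemma coeff_P (u : ℝ) (n : ℕ) :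
    coeff n (P Cluster264153.sigma u) = Cluster264153.av u n / (n.factorial : ℝ) := by
  unfold P Cluster264153.av
  rw [coeff_mk]
  congr 1
  exact Finset.sum_congr rfl fun π _ => occ_eq u π

lemma omegaSeries_eq (u : ℝ) :
    omegaSeries Cluster264153.sigma u
      = PowerSeries.mk fun n => Cluster264153.U u n / (n.factorial : ℝ) := by
  have h0 : constantCoeff (P Cluster264153.sigma u) ≠ 0 := by
    rw [← coeff_zero_eq_constantCoeff_apply, coeff_P, Cluster264153.av_zero]
    simp
  unfold omegaSeries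
  symm
  rw [PowerSeries.eq_inv_iff_mul_eq_one h0]
  ext n
  rw [coeff_mul, Finset.Nat.sum_antidiagonal_eq_sum_range_succ_mk, coeff_one]
  have hrec := Cluster264153.recurrence u n
  have hfac : ((n.factorial : ℕ) : ℝ) ≠ 0 := by exact_mod_cast n.factorial_ne_zero
  have h1 : ∑ k ∈ Finset.range n.succ,
      (coeff (k, n - k).1 (PowerSeries.mk fun n => Cluster264153.U u n / (n.factorial : ℝ)))
        * (coeff (k, n - k).2 (P Cluster264153.sigma u))
      = (∑ m ∈ Finset.range (n + 1), (n.choose m : ℝ) * Cluster264153.U u m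
          * Cluster264153.av u (n - m)) / (n.factorial : ℝ) := by
    rw [Finset.sum_div]
    refine Finset.sum_congr rfl fun k hk => ?_
    rw [Finset.mem_range] at hk
    rw [coeff_P, coeff_mk]
    have hk' : k ≤ n := by omega
    have h2 := Nat.choose_mul_factorial_mul_factorial hk'
    have h3 : ((n.choose k : ℕ) : ℝ) * (k.factorial : ℝ) * ((n - k).factorial : ℝ)
        = (n.factorial : ℝ) := by exact_mod_cast h2
    have hkf : ((k.factorial : ℕ) : ℝ) ≠ 0 := by exact_mod_cast k.factorial_ne_zero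
    have hnkf : (((n - k).factorial : ℕ) : ℝ) ≠ 0 := by exact_mod_cast (n - k).factorial_ne_zero
    rw [div_mul_div_comm, div_eq_div_iff (mul_ne_zero hkf hnkf) hfac, ← h3]
    ring
  rw [h1, hrec]
  by_cases hn : n = 0
  · subst hn; simp
  · simp [hn]

/-- **Result.** Let `σ = 264153`.  The coefficients of `P_σ(0, z)` are `α_n(σ) / n!`.  For every
real `u < 1` the coefficient of `z ^ (8 T + 9)` in `ω_σ(u, z)` is at most
`- (1 - u) ^ (2 T + 2) / 7 ^ (8 T + 9)`; the series `ω_σ(u, z)` diverges at every complex `z` with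
`(1 - u) |z| ^ 4 ≥ 7 ^ 4`; and for `(1 - u) R ^ 4 > 7 ^ 4` no function holomorphic in the disc
`|z| < R` is a reciprocal of (the sum of) `P_σ(u, z)` near `0`. -/
theorem result :
    ∃ σ : Equiv.Perm (Fin 6), ⇑σ = ![1, 5, 3, 0, 4, 2] ∧
      (∀ n : ℕ, coeff n (P σ 0) = (avoiders σ n : ℝ) / (n.factorial : ℝ)) ∧
      ∀ u : ℝ, u < 1 →
        (∀ T : ℕ, (1 - u) ^ (2 * T + 2) / 7 ^ (8 * T + 9) ≤ - coeff (8 * T + 9) (omegaSeries σ u)) ∧
        (∀ z : ℂ, 7 ^ 4 ≤ (1 - u) * ‖z‖ ^ 4 →
          ¬ Summable fun n : ℕ => ((coeff n (omegaSeries σ u) : ℝ) : ℂ) * z ^ n) ∧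
        (∀ R : ℝ, 0 < R → 7 ^ 4 < (1 - u) * R ^ 4 →
          ¬ ∃ f : ℂ → ℂ, DifferentiableOn ℂ f (Metric.ball 0 R) ∧
            ∀ᶠ z in nhds (0 : ℂ), f z * (∑' n : ℕ, ((coeff n (P σ u) : ℝ) : ℂ) * z ^ n) = 1) := by
  refine ⟨Cluster264153.sigma, rfl, ?_, ?_⟩
  · intro n
    classical
    unfold P avoiders
    rw [coeff_mk]
    congr 1
    have h1 : ∀ π : Equiv.Perm (Fin n), (0 : ℝ) ^ occ Cluster264153.sigma π
        = if (∀ i : ℕ, ¬ OccursAt Cluster264153.sigma π i) then 1 else 0 := by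
      intro π
      have hfin : ({i : ℕ | OccursAt Cluster264153.sigma π i} : Set ℕ).Finite := by
        refine (Set.finite_Iio n).subset ?_
        rintro i ⟨h, -⟩
        simp only [Set.mem_Iio]
        omega
      unfold occ
      by_cases h : ∀ i : ℕ, ¬ OccursAt Cluster264153.sigma π i
      · have : ({i : ℕ | OccursAt Cluster264153.sigma π i} : Set ℕ) = ∅ := by
          ext i; simp [h i]
        rw [this, Set.ncard_empty, pow_zero, if_pos h]
      · rw [if_neg h, zero_pow]
        intro h0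
        rw [Set.ncard_eq_zero hfin] at h0
        apply h
        intro i hi
        have : i ∈ ({i : ℕ | OccursAt Cluster264153.sigma π i} : Set ℕ) := hi
        rw [h0] at this
        exact this
    rw [Finset.sum_congr rfl fun π _ => h1 π, Finset.sum_boole]
    congr 1
    rw [Set.ncard_eq_toFinset_card']
    congr 1
    ext π
    simp
  · intro u hu
    have hu0 : 0 < 1 - u := by linarith
    have hlow : ∀ T : ℕ, (1 - u) ^ (2 * T + 2) / 7 ^ (8 * T + 9)
        ≤ - coeff (8 * T + 9) (omegaSeries Cluster264153.sigma u) := by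
      intro T
      rw [omegaSeries_eq, coeff_mk]
      have h1 := Cluster264153.U_lower u hu T
      have hfac : (0 : ℝ) < ((8 * T + 9).factorial : ℝ) := by
        exact_mod_cast Nat.factorial_pos _
      rw [div_le_iff₀ (by positivity), ← neg_div, div_mul_eq_mul_div, le_div_iff₀ hfac]
      exact h1
    refine ⟨hlow, ?_, ?_⟩
    · intro z hz hsum
      have hz0 : 0 < ‖z‖ := by
        rcases (norm_nonneg z).eq_or_lt with h | h
        · rw [← h] at hz
          norm_num at hz
        · exact h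
      have hlim := hsum.tendsto_atTop_zero
      have hsub : Filter.Tendsto (fun T : ℕ => 8 * T + 9) Filter.atTop Filter.atTop :=
        Filter.tendsto_atTop_mono (fun T => by show T ≤ 8 * T + 9; omega) Filter.tendsto_id
      have hlim2 := (hlim.comp hsub).norm
      rw [norm_zero] at hlim2
      have hc : 0 < (1 - u) ^ 2 * ‖z‖ ^ 9 / 7 ^ 9 := by positivity
      have hge : ∀ T : ℕ, (1 - u) ^ 2 * ‖z‖ ^ 9 / 7 ^ 9
          ≤ ‖((fun n : ℕ => ((coeff n (omegaSeries Cluster264153.sigma u) : ℝ) : ℂ) * z ^ n)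
              ∘ fun T : ℕ => 8 * T + 9) T‖ := by
        intro T
        simp only [Function.comp_apply, norm_mul, norm_pow, Complex.norm_real, Real.norm_eq_abs]
        have h1 : (1 - u) ^ (2 * T + 2) / 7 ^ (8 * T + 9)
            ≤ |coeff (8 * T + 9) (omegaSeries Cluster264153.sigma u)| :=
          (hlow T).trans (neg_le_abs _)
        refine le_trans ?_ (mul_le_mul_of_nonneg_right h1 (by positivity))
        have h2 : (1 - u) ^ (2 * T + 2) / 7 ^ (8 * T + 9) * ‖z‖ ^ (8 * T + 9)
            = ((1 - u) * ‖z‖ ^ 4 / 7 ^ 4) ^ (2 * T) * ((1 - u) ^ 2 * ‖z‖ ^ 9 / 7 ^ 9) := by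
          have e7 : (7 : ℝ) ^ (8 * T + 9) = (7 ^ 4) ^ (2 * T) * 7 ^ 9 := by
            rw [← pow_mul, ← pow_add]
            congr 1
            ring
          have ez : ‖z‖ ^ (8 * T + 9) = (‖z‖ ^ 4) ^ (2 * T) * ‖z‖ ^ 9 := by
            rw [← pow_mul, ← pow_add]
            congr 1
            ring
          rw [e7, ez, div_pow, mul_pow, pow_add (1 - u)]
          field_simp
        rw [h2]
        have h3 : (1 : ℝ) ≤ ((1 - u) * ‖z‖ ^ 4 / 7 ^ 4) ^ (2 * T) :=
          one_le_pow₀ ((one_le_div (by positivity)).2 hz)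
        calc (1 - u) ^ 2 * ‖z‖ ^ 9 / 7 ^ 9 = 1 * ((1 - u) ^ 2 * ‖z‖ ^ 9 / 7 ^ 9) :=
              (one_mul _).symm
          _ ≤ _ := mul_le_mul_of_nonneg_right h3 hc.le
      exact absurd (ge_of_tendsto' hlim2 hge) (not_le.2 hc)
    · rintro R hR0 hR ⟨f, hf, hfF⟩
      refine Cluster264153.no_holomorphic u hu R hR0 hR f hf ?_
      filter_upwards [hfF] with z hz
      rw [← hz]
      congr 1
      refine tsum_congr fun n => ?_
      rw [coeff_P]
      push_cast
      ring

end Pool.Agent.Results.MP_9a52ae_co.WeightsBelowOne
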